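import Pool.Agent.X128.MQ3

/-!
# The mean abandonment rate of the M/M/m+M queue is strictly increasing and strictly convex
-/

set_option autoImplicit false

namespace Pool.Agent.Results.MP_e714e3_pr.AbandonmentConvex

open Finset Filter Topology Set
open Pool.Agent.X128

/-- The two disciplines: deadline to the beginning of service (`DBS`), deadline to the end of
service (`DES`). -/
inductive Discipline
  | DBS
  | DES

/-- The total abandonment rate `L(i)` with `i` jobs present: `(i - m)^+ θ` under `DBS`, `i θ` under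
`DES`. -/
noncomputable def abandon (D : Discipline) (m : ℕ) (θ : ℝ) (i : ℕ) : ℝ :=
  match D with
  | .DBS => max ((i : ℝ) - m) 0 * θ
  | .DES => i * θ

/-- The death rate `d_i = min(i, m) μ + L(i)`. -/
noncomputable def death (D : Discipline) (m : ℕ) (μ θ : ℝ) (i : ℕ) : ℝ :=
  min (i : ℝ) m * μ + abandon D m θ i

/-- `π` is a stationary distribution of the birth-death process with the birth rate `b` and the
death rates `d 1, d 2, …`. -/
def IsStationary (b : ℝ) (d : ℕ → ℝ) (π : ℕ → ℝ) : Prop :=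
  (∀ i, 0 ≤ π i) ∧ HasSum π 1 ∧ b * π 0 = d 1 * π 1 ∧
    ∀ i, (b + d (i + 1)) * π (i + 1) = b * π i + d (i + 2) * π (i + 2)

/-- The stationary law of the number of jobs, proportional to `∏_{j=1}^i lam / d_j`. -/
noncomputable def stat (D : Discipline) (m : ℕ) (μ θ lam : ℝ) (i : ℕ) : ℝ :=
  (∏ j ∈ Finset.range i, lam / death D m μ θ (j + 1)) /
    ∑' k, ∏ j ∈ Finset.range k, lam / death D m μ θ (j + 1)

/-- The mean abandonment rate `ℓ(lam) = ∑_i π_i L(i)`. -/
noncomputable def ell (D : Discipline) (m : ℕ) (μ θ lam : ℝ) : ℝ :=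
  ∑' i, stat D m μ θ lam i * abandon D m θ i

/-- the parameter `κ` of the library: `d_i = κ min(i, m) + θ (i - m)^+` -/
def kap (D : Discipline) (μ θ : ℝ) : ℝ :=
  match D with
  | .DBS => μ
  | .DES => μ + θ

lemma kap_pos (D : Discipline) {μ θ : ℝ} (hμ : 0 < μ) (hθ : 0 < θ) : 0 < kap D μ θ := by
  cases D with
  | DBS => exact hμ
  | DES => exact add_pos hμ hθ

lemma death_eq (D : Discipline) (m : ℕ) (μ θ : ℝ) (i : ℕ) :
    death D m μ θ i = MQ.dt m (kap D μ θ) θ i := by
  have h := MQ.mn_add_ex m i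
  cases D with
  | DBS =>
    unfold death abandon MQ.dt kap MQ.mn MQ.ex
    ring
  | DES =>
    unfold death abandon MQ.dt kap
    simp only
    rw [← h]
    unfold MQ.mn MQ.ex
    rw [show ((min (i : ℝ) m + max ((i : ℝ) - m) 0 : ℝ)) = i from h]
    unfold MQ.mn MQ.ex at h
    linear_combination (-θ) * h

lemma prod_eq (D : Discipline) (m : ℕ) (μ θ lam : ℝ) (k : ℕ) :
    ∏ j ∈ Finset.range k, lam / death D m μ θ (j + 1) =
      MQ.wt m (kap D μ θ) θ k * lam ^ k := by
  unfold MQ.wt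
  induction k with
  | zero => simp
  | succ k ih =>
    rw [Finset.prod_range_succ, ih, Finset.prod_range_succ, death_eq, pow_succ]
    ring

lemma stat_eq (D : Discipline) (m : ℕ) (μ θ lam : ℝ) (i : ℕ) :
    stat D m μ θ lam i =
      MQ.wt m (kap D μ θ) θ i * lam ^ i / MQ.P (MQ.wt m (kap D μ θ) θ) lam := by
  unfold stat MQ.P
  simp only [prod_eq]

lemma stat_pos (D : Discipline) {m : ℕ} {μ θ lam : ℝ} (hμ : 0 < μ) (hθ : 0 < θ) (hl : 0 < lam)
    (i : ℕ) : 0 < stat D m μ θ lam i := by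
  have hκ := kap_pos D hμ hθ
  rw [stat_eq]
  have h1 := MQ.wt_pos (m := m) hκ hθ i
  have h2 := MQ.P_wt_pos (m := m) hκ hθ hl
  positivity

lemma stat_sum (D : Discipline) {m : ℕ} {μ θ lam : ℝ} (hμ : 0 < μ) (hθ : 0 < θ) (hl : 0 < lam) :
    HasSum (stat D m μ θ lam) 1 := by
  have hκ := kap_pos D hμ hθ
  have h2 := MQ.P_wt_pos (m := m) hκ hθ hl
  have h3 := (MQ.hasSum_P (MQ.En_wt (m := m) hκ hθ) lam).div_const
    (MQ.P (MQ.wt m (kap D μ θ) θ) lam)
  rw [div_self h2.ne'] at h3
  exact MQ.hs_congr h3 fun i => stat_eq D m μ θ lam i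

/-- detailed balance -/
lemma stat_rec (D : Discipline) {m : ℕ} {μ θ lam : ℝ} (hμ : 0 < μ) (hθ : 0 < θ) (i : ℕ) :
    lam * stat D m μ θ lam i = death D m μ θ (i + 1) * stat D m μ θ lam (i + 1) := by
  have hκ := kap_pos D hμ hθ
  rw [stat_eq, stat_eq, death_eq, ← MQ.wt_succ hκ hθ i]
  ring

lemma death_zero (D : Discipline) (m : ℕ) (μ θ : ℝ) : death D m μ θ 0 = 0 := by
  rw [death_eq, MQ.dt_zero]

lemma death_pos (D : Discipline) (m : ℕ) {μ θ : ℝ} (hμ : 0 < μ) (hθ : 0 < θ) (i : ℕ) :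
    0 < death D m μ θ (i + 1) := by
  rw [death_eq]
  exact MQ.dt_pos (kap_pos D hμ hθ) hθ i

lemma stationary (D : Discipline) {m : ℕ} {μ θ lam : ℝ} (hμ : 0 < μ) (hθ : 0 < θ) (hl : 0 < lam) :
    IsStationary lam (death D m μ θ) (stat D m μ θ lam) ∧
      ∀ π, IsStationary lam (death D m μ θ) π → π = stat D m μ θ lam := by
  refine ⟨⟨fun i => (stat_pos D hμ hθ hl i).le, stat_sum D hμ hθ hl, stat_rec D hμ hθ 0,
    fun i => ?_⟩, ?_⟩
  · have h1 := stat_rec (lam := lam) D (m := m) hμ hθ i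
    have h2 := stat_rec (lam := lam) D (m := m) hμ hθ (i + 1)
    linarith
  · rintro π ⟨_, h1, h2, h3⟩
    have hrec : ∀ i, lam * π i = death D m μ θ (i + 1) * π (i + 1) := by
      intro i
      induction i with
      | zero => exact h2
      | succ i ih => have := h3 i; linarith
    have hprop : ∀ i, π i * stat D m μ θ lam 0 = π 0 * stat D m μ θ lam i := by
      intro i
      induction i with
      | zero => ring
      | succ i ih =>
        have h4 := hrec i
        have h5 := stat_rec (lam := lam) D (m := m) hμ hθ i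
        have h6 := (death_pos D m hμ hθ i).ne'
        apply mul_left_cancel₀ h6
        calc death D m μ θ (i + 1) * (π (i + 1) * stat D m μ θ lam 0)
            = lam * (π i * stat D m μ θ lam 0) := by rw [← mul_assoc, ← h4]; ring
          _ = lam * (π 0 * stat D m μ θ lam i) := by rw [ih]
          _ = π 0 * (lam * stat D m μ θ lam i) := by ring
          _ = death D m μ θ (i + 1) * (π 0 * stat D m μ θ lam (i + 1)) := by rw [h5]; ring
    have h7 : π 0 = stat D m μ θ lam 0 := by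
      have h8 := h1.mul_right (stat D m μ θ lam 0)
      have h9 := (stat_sum (m := m) D hμ hθ hl).mul_left (π 0)
      have h10 := MQ.hs_congr h9 hprop
      have := h8.unique h10
      linarith
    funext i
    have h11 := hprop i
    have h12 := (stat_pos (m := m) D hμ hθ hl 0).ne'
    rw [h7, mul_comm (stat D m μ θ lam 0)] at h11
    exact mul_right_cancel₀ h12 h11

/-- `ℓ(lam) = lam - μ E min(X, m)` -/
lemma ell_sum (D : Discipline) {m : ℕ} {μ θ lam : ℝ} (hμ : 0 < μ) (hθ : 0 < θ) (hl : 0 < lam) :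
    HasSum (fun i => stat D m μ θ lam i * abandon D m θ i)
      (lam - μ * MQ.g m (kap D μ θ) θ lam) := by
  have hκ := kap_pos D hμ hθ
  have hd : HasSum (fun i => death D m μ θ i * stat D m μ θ lam i) lam := by
    have h2 : HasSum (fun i => death D m μ θ (i + 1) * stat D m μ θ lam (i + 1)) lam := by
      simp only [← stat_rec D hμ hθ]
      simpa using (stat_sum (m := m) D hμ hθ hl).mul_left lam
    have h3 := (hasSum_nat_add_iff (f := fun i => death D m μ θ i * stat D m μ θ lam i) 1).1 h2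
    simpa [death_zero] using h3
  have hm' := ((MQ.hasSum_P (MQ.En_mn (m := m) hκ hθ) lam).div_const
    (MQ.P (MQ.wt m (kap D μ θ) θ) lam)).mul_left μ
  refine MQ.hs_congr (hd.sub hm') fun i => ?_
  rw [stat_eq]
  have : abandon D m θ i = death D m μ θ i - μ * MQ.mn m i := by
    unfold death MQ.mn
    ring
  rw [this]
  ring

lemma ell_eq (D : Discipline) {m : ℕ} {μ θ lam : ℝ} (hμ : 0 < μ) (hθ : 0 < θ) (hl : 0 < lam) :
    ell D m μ θ lam = lam - μ * MQ.g m (kap D μ θ) θ lam := (ell_sum D hμ hθ hl).tsum_eq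

lemma ell_pos (D : Discipline) {m : ℕ} {μ θ lam : ℝ} (hμ : 0 < μ) (hθ : 0 < θ) (hl : 0 < lam) :
    0 < ell D m μ θ lam := by
  refine (ell_sum D hμ hθ hl).summable.tsum_pos (fun i => ?_) (m + 1) ?_
  · refine mul_nonneg (stat_pos D hμ hθ hl i).le ?_
    cases D with
    | DBS => exact mul_nonneg (le_max_right _ _) hθ.le
    | DES => exact mul_nonneg (Nat.cast_nonneg i) hθ.le
  · refine mul_pos (stat_pos D hμ hθ hl (m + 1)) ?_
    cases D with
    | DBS =>
      refine mul_pos ?_ hθ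
      refine lt_max_of_lt_left ?_
      push_cast
      linarith
    | DES =>
      unfold abandon
      positivity

/-- **The mean abandonment rate of the M/M/m+M queue.** For all `m ≥ 1`, `μ, θ > 0` and both
disciplines: `stat` is the unique stationary law; `ℓ` is positive, strictly increasing and strictly
convex on `(0, ∞)`; it is differentiable with smooth derivative; `ℓ'' > 0`, and `ℓ'` is strictly
increasing and tends to `1`. -/
theorem result (D : Discipline) (m : ℕ) (hm : 1 ≤ m) (μ θ : ℝ) (hμ : 0 < μ) (hθ : 0 < θ) :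
    (∀ lam : ℝ, 0 < lam → IsStationary lam (death D m μ θ) (stat D m μ θ lam) ∧
      (∀ π, IsStationary lam (death D m μ θ) π → π = stat D m μ θ lam) ∧
      Summable (fun i => stat D m μ θ lam i * abandon D m θ i) ∧ 0 < ell D m μ θ lam) ∧
    StrictMonoOn (ell D m μ θ) (Ioi 0) ∧ StrictConvexOn ℝ (Ioi 0) (ell D m μ θ) ∧
    DifferentiableOn ℝ (ell D m μ θ) (Ioi 0) ∧
    (∀ n : ℕ, ContDiffOn ℝ n (deriv (ell D m μ θ)) (Ioi 0)) ∧
    (∀ lam : ℝ, 0 < lam → 0 < deriv (deriv (ell D m μ θ)) lam) ∧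
    StrictMonoOn (deriv (ell D m μ θ)) (Ioi 0) ∧
    Tendsto (deriv (ell D m μ θ)) atTop (𝓝 1) := by
  have hκ := kap_pos D hμ hθ
  obtain ⟨κ, hκe⟩ : ∃ κ, κ = kap D μ θ := ⟨_, rfl⟩
  rw [← hκe] at hκ
  have hev : ∀ x : ℝ, 0 < x → ell D m μ θ =ᶠ[𝓝 x] fun y => y - μ * MQ.g m κ θ y := by
    intro x hx
    filter_upwards [Ioi_mem_nhds hx] with y hy
    rw [ell_eq D hμ hθ hy, hκe]
  have hd : ∀ x : ℝ, 0 < x → HasDerivAt (ell D m μ θ) (1 - μ * MQ.g1 m κ θ x) x := by
    intro x hx
    refine HasDerivAt.congr_of_eventuallyEq ?_ (hev x hx)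
    exact (hasDerivAt_id x).sub ((MQ.hasDerivAt_g hκ hθ hx).const_mul μ)
  have hev2 : ∀ x : ℝ, 0 < x → deriv (ell D m μ θ) =ᶠ[𝓝 x] fun y => 1 - μ * MQ.g1 m κ θ y := by
    intro x hx
    filter_upwards [Ioi_mem_nhds hx] with y hy
    exact (hd y hy).deriv
  have hd2 : ∀ x : ℝ, 0 < x → HasDerivAt (deriv (ell D m μ θ)) (-(μ * MQ.g2 m κ θ x)) x := by
    intro x hx
    refine HasDerivAt.congr_of_eventuallyEq ?_ (hev2 x hx)
    have := (hasDerivAt_const x (1 : ℝ)).sub ((MQ.hasDerivAt_g1 (m := m) hκ hθ hx).const_mul μ)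
    rwa [zero_sub] at this
  have hpos2 : ∀ x : ℝ, 0 < x → 0 < deriv (deriv (ell D m μ θ)) x := by
    intro x hx
    rw [(hd2 x hx).deriv]
    have := MQ.g2_neg hm hκ hθ hx
    nlinarith
  have hcd : ContinuousOn (ell D m μ θ) (Ioi 0) := fun x hx =>
    (hd x hx).continuousAt.continuousWithinAt
  have hmono' : StrictMonoOn (deriv (ell D m μ θ)) (Ioi 0) := by
    refine strictMonoOn_of_deriv_pos (convex_Ioi 0) ?_ ?_
    · exact fun x hx => (hd2 x hx).continuousAt.continuousWithinAt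
    · intro x hx
      rw [interior_Ioi] at hx
      exact hpos2 x hx
  have hconv : StrictConvexOn ℝ (Ioi 0) (ell D m μ θ) := by
    refine StrictMonoOn.strictConvexOn_of_deriv (convex_Ioi 0) hcd ?_
    rw [interior_Ioi]
    exact hmono'
  -- the derivative of the mean of min(X, m)
  have hg1 : ∀ x : ℝ, 0 < x → deriv (ell D m μ θ) x = 1 - μ * MQ.g1 m κ θ x := fun x hx =>
    (hd x hx).deriv
  have hganti : StrictAntiOn (MQ.g1 m κ θ) (Ioi 0) := by
    intro x hx y hy hxy
    have := hmono' hx hy hxy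
    rw [hg1 x hx, hg1 y hy] at this
    by_contra hcon
    have h2 := mul_le_mul_of_nonneg_left (not_lt.1 hcon) hμ.le
    linarith
  -- mean value estimates
  have hmv : ∀ x y : ℝ, 0 < x → x < y →
      ∃ z ∈ Ioo x y, MQ.g1 m κ θ z = (MQ.g m κ θ y - MQ.g m κ θ x) / (y - x) := by
    intro x y hx hxy
    refine exists_hasDerivAt_eq_slope (MQ.g m κ θ) (MQ.g1 m κ θ) hxy ?_ ?_
    · exact fun z hz =>
        (MQ.hasDerivAt_g hκ hθ (lt_of_lt_of_le hx hz.1)).continuousAt.continuousWithinAt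
    · exact fun z hz => MQ.hasDerivAt_g hκ hθ (hx.trans hz.1)
  have hg1up : ∀ x : ℝ, 0 < x → MQ.g1 m κ θ x ≤ 2 * m / x := by
    intro x hx
    obtain ⟨z, hz, hz2⟩ := hmv (x / 2) x (by linarith) (by linarith)
    have h1 : MQ.g1 m κ θ x ≤ MQ.g1 m κ θ z :=
      (hganti (show (0 : ℝ) < z by linarith [hz.1]) hx hz.2).le
    have h2 := MQ.g_le (m := m) hκ hθ hx
    have h3 := MQ.g_nonneg (m := m) hκ hθ (show (0 : ℝ) < x / 2 by linarith)
    refine h1.trans ?_
    rw [hz2, div_le_div_iff₀ (by linarith) hx]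
    nlinarith
  have hg1low : ∀ x : ℝ, 0 < x → 0 ≤ MQ.g1 m κ θ x := by
    intro x hx
    by_contra hcon
    rw [not_le] at hcon
    -- go far to the right
    obtain ⟨y, hy⟩ : ∃ y, y = x + (m + 1) / (-MQ.g1 m κ θ x) := ⟨_, rfl⟩
    have hneg : 0 < -MQ.g1 m κ θ x := by linarith
    have hyx : x < y := by
      rw [hy]
      have : (0 : ℝ) < (m + 1) / (-MQ.g1 m κ θ x) := by positivity
      linarith
    obtain ⟨z, hz, hz2⟩ := hmv x y hx hyx
    have h1 : MQ.g1 m κ θ z < MQ.g1 m κ θ x := hganti hx (hx.trans hz.1) hz.1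
    rw [hz2, div_lt_iff₀ (by linarith)] at h1
    have h2 := MQ.g_nonneg (m := m) hκ hθ (hx.trans hyx)
    have h3 := MQ.g_le (m := m) hκ hθ hx
    have h4 : MQ.g1 m κ θ x * (y - x) = -(m + 1) := by
      rw [hy]
      have := hneg.ne'
      have h5 : MQ.g1 m κ θ x ≠ 0 := by linarith
      field_simp
      ring
    linarith
  refine ⟨fun lam hl => ⟨(stationary D hμ hθ hl).1, (stationary D hμ hθ hl).2,
    (ell_sum D hμ hθ hl).summable, ell_pos D hμ hθ hl⟩, ?_, hconv,
    fun x hx => (hd x hx).differentiableAt.differentiableWithinAt, ?_, hpos2, hmono', ?_⟩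
  · -- strictly increasing
    intro x hx y hy hxy
    have hx' : (0 : ℝ) < x := hx
    have h1 := ell_pos (m := m) D hμ hθ hx'
    obtain ⟨z, hz⟩ : ∃ z, z = min (x / 2) (ell D m μ θ x / 2) := ⟨_, rfl⟩
    have hz0 : 0 < z := by rw [hz]; exact lt_min (by linarith) (by linarith)
    have hzx : z < x := by
      have := min_le_left (x / 2) (ell D m μ θ x / 2)
      rw [← hz] at this
      linarith
    have hzl : ell D m μ θ z < ell D m μ θ x := by
      have h2 := ell_eq (m := m) D hμ hθ hz0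
      have h3 := MQ.g_nonneg (m := m) (kap_pos D hμ hθ) hθ hz0
      have h4 := min_le_right (x / 2) (ell D m μ θ x / 2)
      rw [← hz] at h4
      have h5 := mul_nonneg hμ.le h3
      linarith
    have h5 := hconv.slope_strict_mono_adjacent (show z ∈ Ioi (0 : ℝ) from hz0) hy hzx hxy
    have h6 : 0 < (ell D m μ θ x - ell D m μ θ z) / (x - z) :=
      div_pos (by linarith) (by linarith)
    have h7 := h6.trans h5
    have h8 : 0 < y - x := by linarith
    rw [lt_div_iff₀ h8] at h7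
    linarith
  · intro n
    have h1 : ContDiffOn ℝ ((n : ℕ∞) + 1 : ℕ∞) (ell D m μ θ) (Ioi 0) := by
      intro x hx
      refine ContDiffAt.contDiffWithinAt ?_
      refine ContDiffAt.congr_of_eventuallyEq ?_ (hev x hx)
      exact contDiffAt_id.sub (contDiffAt_const.mul (by exact_mod_cast MQ.contDiffAt_g hκ hθ hx (n + 1)))
    refine ContDiffOn.deriv_of_isOpen h1 isOpen_Ioi ?_
    exact_mod_cast le_rfl
  · -- the limit
    have h1 : Tendsto (fun x : ℝ => 1 - μ * (2 * m / x)) atTop (𝓝 1) := by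
      have := ((tendsto_const_nhds (x := 2 * (m : ℝ))).div_atTop tendsto_id).const_mul μ
      have h2 := (tendsto_const_nhds (x := (1 : ℝ))).sub this
      simpa using h2
    refine tendsto_of_tendsto_of_tendsto_of_le_of_le' h1 tendsto_const_nhds ?_ ?_
    · filter_upwards [eventually_gt_atTop 0] with x hx
      rw [hg1 x hx]
      have := mul_le_mul_of_nonneg_left (hg1up x hx) hμ.le
      linarith
    · filter_upwards [eventually_gt_atTop 0] with x hx
      rw [hg1 x hx]
      have := mul_nonneg hμ.le (hg1low x hx)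
      linarith

end Pool.Agent.Results.MP_e714e3_pr.AbandonmentConvex
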